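import Mathlib

set_option autoImplicit false

/-!
# No equivalent norm on a space containing `ℓ^∞` is locally uniformly rotund
-/

namespace Pool.Agent.W691

open Filter Topology Set
open scoped ENNReal

variable {𝕜 : Type} [RCLike 𝕜]

/-- bounded sequences -/
abbrev LI (𝕜 : Type) [RCLike 𝕜] : Type := lp (fun _ : ℕ => 𝕜) ∞

/-- vectors of the unit ball supported in `B` and missing infinitely many points of `B` -/
def Adm (B : Set ℕ) : Set (LI 𝕜) :=
  {z | ‖z‖ ≤ 1 ∧ (∀ k, z k ≠ 0 → k ∈ B) ∧ (B ∩ {k | z k = 0}).Infinite}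

/-- the supremum -/
noncomputable def Sup (p : LI 𝕜 → ℝ) (x : LI 𝕜) (B : Set ℕ) : ℝ :=
  sSup ((fun z => p (x + z)) '' Adm B)

theorem zero_adm {B : Set ℕ} (hB : B.Infinite) : (0 : LI 𝕜) ∈ Adm B := by
  refine ⟨by simp, fun k hk => absurd rfl hk, ?_⟩
  have : (B ∩ {k | (0 : LI 𝕜) k = 0}) = B := by
    ext k
    simp
  rw [this]
  exact hB

theorem neg_adm {B : Set ℕ} {z : LI 𝕜} (hz : z ∈ Adm B) : -z ∈ Adm B := by
  obtain ⟨h1, h2, h3⟩ := hz
  refine ⟨by rwa [norm_neg], fun k hk => h2 k ?_, ?_⟩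
  · intro h
    apply hk
    show -(z k) = 0
    rw [h, neg_zero]
  · refine h3.mono ?_
    rintro k ⟨hk1, hk2⟩
    refine ⟨hk1, ?_⟩
    show -(z k) = 0
    rw [show z k = 0 from hk2, neg_zero]

theorem half_adm {B : Set ℕ} {z : LI 𝕜} (hz : z ∈ Adm B) : ((1 / 2 : ℝ) : 𝕜) • z ∈ Adm B := by
  obtain ⟨h1, h2, h3⟩ := hz
  refine ⟨?_, fun k hk => h2 k ?_, ?_⟩
  · rw [norm_smul, RCLike.norm_ofReal, abs_of_pos (by norm_num)]
    linarith
  · intro h
    apply hk
    show ((1 / 2 : ℝ) : 𝕜) * (z k) = 0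
    rw [h, mul_zero]
  · refine h3.mono ?_
    rintro k ⟨hk1, hk2⟩
    refine ⟨hk1, ?_⟩
    show ((1 / 2 : ℝ) : 𝕜) * (z k) = 0
    rw [show z k = 0 from hk2, mul_zero]

/-- norm bound by coordinates -/
theorem norm_le_of_coord {z : LI 𝕜} {C : ℝ} (hC : 0 ≤ C) (h : ∀ k, ‖z k‖ ≤ C) : ‖z‖ ≤ C :=
  lp.norm_le_of_forall_le hC h

theorem coord_le (z : LI 𝕜) (k : ℕ) : ‖z k‖ ≤ ‖z‖ :=
  lp.norm_apply_le_norm ENNReal.top_ne_zero z k

theorem four_smul_mid {E : Type} [AddCommGroup E] [Module 𝕜 E] (x y : E) :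
    (4 : 𝕜) • y = (x + y) + (2 : 𝕜) • (y + - (((1 / 2 : ℝ) : 𝕜) • (x - y))) := by
  have h3 : (2 : 𝕜) * ((1 / 2 : ℝ) : 𝕜) = 1 := by
    push_cast
    norm_num
  rw [smul_add, smul_neg, smul_smul, h3, one_smul, show (4 : 𝕜) = 2 + 2 by norm_num, add_smul,
    two_smul]
  abel

section

variable (p : Seminorm 𝕜 (LI 𝕜)) {C : ℝ} (hp : ∀ x, p x ≤ C * ‖x‖)
include hp

theorem C_nonneg : 0 ≤ C := by
  have h1 := hp (lp.single ∞ 0 (1 : 𝕜))
  have h2 := apply_nonneg p (lp.single ∞ 0 (1 : 𝕜))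
  have h3 : ‖(lp.single ∞ 0 (1 : 𝕜) : LI 𝕜)‖ = 1 := by
    rw [lp.norm_single (by simp)]
    simp
  rw [h3, mul_one] at h1
  linarith

theorem bdd (x : LI 𝕜) (B : Set ℕ) : BddAbove ((fun z => p (x + z)) '' Adm B) := by
  refine ⟨C * (‖x‖ + 1), ?_⟩
  rintro _ ⟨z, hz, rfl⟩
  refine (hp _).trans (mul_le_mul_of_nonneg_left ?_ (C_nonneg p hp))
  refine (norm_add_le _ _).trans ?_
  linarith [hz.1]

theorem le_Sup {x : LI 𝕜} {B : Set ℕ} {z : LI 𝕜} (hz : z ∈ Adm B) : p (x + z) ≤ Sup p x B :=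
  le_csSup (bdd p hp x B) ⟨z, hz, rfl⟩

omit hp in
/-- One step of the construction. -/
theorem step (x : LI 𝕜) {B : Set ℕ} (hB : B.Infinite) {ε : ℝ} (hε : 0 < ε) :
    ∃ (z : LI 𝕜) (b b' : ℕ), ‖z‖ ≤ 1 ∧ (∀ k, z k ≠ 0 → k ∈ B) ∧ ‖z b'‖ = 1 ∧ b ∈ B ∧ z b = 0 ∧
      ((B ∩ {k | z k = 0}) \ {b}).Infinite ∧ Sup p x B - ε < p (x + z) := by
  classical
  have hne : ((fun z => p (x + z)) '' Adm B).Nonempty := ⟨_, 0, zero_adm hB, rfl⟩
  obtain ⟨_, ⟨z, hz, rfl⟩, hlt⟩ := exists_lt_of_lt_csSup hne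
    (show Sup p x B - ε < sSup ((fun z => p (x + z)) '' Adm B) from sub_lt_self _ hε)
  obtain ⟨hz1, hz2, hz3⟩ := hz
  obtain ⟨b', hb'B, hb'0⟩ := hz3.nonempty
  have hb'0 : z b' = 0 := hb'0
  let e : LI 𝕜 := lp.single ∞ b' (1 : 𝕜)
  have he : e b' = 1 := lp.single_apply_self (E := fun _ : ℕ => 𝕜) ∞ b' (1 : 𝕜)
  have he' : ∀ k, k ≠ b' → e k = 0 := fun k hk =>
    lp.single_apply_ne (E := fun _ : ℕ => 𝕜) ∞ b' (1 : 𝕜) hk
  have key : ∃ σ : 𝕜, ‖σ‖ = 1 ∧ p (x + z) ≤ p (x + (z + σ • e)) := by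
    by_contra hcon
    push Not at hcon
    have h1 := hcon 1 norm_one
    have h2 := hcon (-1) (by rw [norm_neg, norm_one])
    have h3 : (2 : 𝕜) • (x + z) = (x + (z + (1 : 𝕜) • e)) + (x + (z + (-1 : 𝕜) • e)) := by
      rw [two_smul, one_smul, neg_one_smul]
      abel
    have h4 : p ((2 : 𝕜) • (x + z)) = 2 * p (x + z) := by
      rw [map_smul_eq_mul, RCLike.norm_ofNat]
    have h5 := map_add_le_add p (x + (z + (1 : 𝕜) • e)) (x + (z + (-1 : 𝕜) • e))
    rw [← h3, h4] at h5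
    linarith
  obtain ⟨σ, hσ, hle⟩ := key
  let w : LI 𝕜 := z + σ • e
  have hw : ∀ k, w k = z k + σ * e k := fun k => rfl
  have hwb' : w b' = σ := by rw [hw, hb'0, he, mul_one, zero_add]
  have hwk : ∀ k, k ≠ b' → w k = z k := by
    intro k hk
    rw [hw, he' k hk, mul_zero, add_zero]
  have hinf : (B ∩ {k | w k = 0}).Infinite := by
    have h1 : ((B ∩ {k | z k = 0}) \ {b'}).Infinite := hz3.sdiff (Set.finite_singleton b')
    refine h1.mono ?_
    rintro k ⟨⟨hk1, hk2⟩, hk3⟩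
    refine ⟨hk1, ?_⟩
    show w k = 0
    rw [hwk k hk3]
    exact hk2
  obtain ⟨b, hbB, hb0⟩ := hinf.nonempty
  refine ⟨w, b, b', ?_, ?_, ?_, hbB, hb0, hinf.sdiff (Set.finite_singleton b), ?_⟩
  · apply norm_le_of_coord zero_le_one
    intro k
    by_cases hk : k = b'
    · subst hk
      rw [hwb', hσ]
    · rw [hwk k hk]
      exact (coord_le z k).trans hz1
  · intro k hk
    by_cases hkb : k = b'
    · rw [hkb]
      exact hb'B
    · rw [hwk k hkb] at hk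
      exact hz2 k hk
  · rw [hwb', hσ]
  · exact hlt.trans_le hle

/-- The sequence. -/
theorem exists_seq : ∃ (x : LI 𝕜) (y : ℕ → LI 𝕜) (s : ℝ), 1 ≤ ‖x‖ ∧ (∀ n, 1 ≤ ‖x - y n‖) ∧
    p x = s ∧ Tendsto (fun n => p (y n)) atTop (𝓝 s) ∧
    Tendsto (fun n => p (x + y n)) atTop (𝓝 (2 * s)) := by
  classical
  -- choose the step
  have hstep : ∀ (n : ℕ) (q : LI 𝕜 × {B : Set ℕ // B.Infinite}), ∃ t : LI 𝕜 × ℕ × ℕ,
      ‖t.1‖ ≤ 1 ∧ (∀ k, t.1 k ≠ 0 → k ∈ q.2.1) ∧ ‖t.1 t.2.2‖ = 1 ∧ t.2.1 ∈ q.2.1 ∧ t.1 t.2.1 = 0 ∧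
      ((q.2.1 ∩ {k | t.1 k = 0}) \ {t.2.1}).Infinite ∧
      Sup p q.1 q.2.1 - (1 / 2 : ℝ) ^ n < p (q.1 + t.1) := by
    rintro n ⟨x, B, hB⟩
    obtain ⟨z, b, b', h⟩ := step p x hB (show (0 : ℝ) < (1 / 2 : ℝ) ^ n by positivity)
    exact ⟨(z, b, b'), h⟩
  choose T hT1 hT2 hT3 hT4 hT5 hT6 hT7 using hstep
  let st : ℕ → LI 𝕜 × {B : Set ℕ // B.Infinite} := fun n => Nat.rec
    ((0 : LI 𝕜), (⟨Set.univ, Set.infinite_univ⟩ : {B : Set ℕ // B.Infinite}))
    (fun n q => (q.1 + (T n q).1, ⟨_, hT6 n q⟩)) n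
  have hst : ∀ n, st (n + 1) = ((st n).1 + (T n (st n)).1, ⟨_, hT6 n (st n)⟩) := fun n => rfl
  let y : ℕ → LI 𝕜 := fun n => (st n).1
  let B : ℕ → Set ℕ := fun n => (st n).2.1
  let z : ℕ → LI 𝕜 := fun n => (T n (st n)).1
  let b : ℕ → ℕ := fun n => (T n (st n)).2.1
  let b' : ℕ → ℕ := fun n => (T n (st n)).2.2
  have hy0 : y 0 = 0 := rfl
  have hy : ∀ n, y (n + 1) = y n + z n := fun n => rfl
  have hBs : ∀ n, B (n + 1) = (B n ∩ {k | z n k = 0}) \ {b n} := fun n => rfl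
  have hBinf : ∀ n, (B n).Infinite := fun n => (st n).2.2
  have hz1 : ∀ n, ‖z n‖ ≤ 1 := fun n => hT1 n _
  have hz2 : ∀ n k, z n k ≠ 0 → k ∈ B n := fun n => hT2 n _
  have hz3 : ∀ n, ‖z n (b' n)‖ = 1 := fun n => hT3 n _
  have hb : ∀ n, b n ∈ B n := fun n => hT4 n _
  have hb0 : ∀ n, z n (b n) = 0 := fun n => hT5 n _
  have hS : ∀ n, Sup p (y n) (B n) - (1 / 2 : ℝ) ^ n < p (y (n + 1)) := fun n => hT7 n _
  have hBanti : Antitone B := antitone_nat_of_succ_le fun n => by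
    rw [hBs]
    exact sdiff_subset.trans inter_subset_left
  -- disjointness
  have hdis : ∀ m n k, m < n → z n k ≠ 0 → z m k = 0 := by
    intro m n k hmn hk
    have h1 : k ∈ B (m + 1) := hBanti (Nat.succ_le_of_lt hmn) (hz2 n k hk)
    rw [hBs] at h1
    exact h1.1.2
  have huniq : ∀ m n k, z m k ≠ 0 → z n k ≠ 0 → m = n := by
    intro m n k hm hn
    rcases lt_trichotomy m n with h | h | h
    · exact absurd (hdis m n k h hn) hm
    · exact h
    · exact absurd (hdis n m k h hm) hn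
  -- the limit
  let xf : ℕ → 𝕜 := fun k => if h : ∃ m, z m k ≠ 0 then z (Classical.choose h) k else 0
  have hxf : ∀ m k, z m k ≠ 0 → xf k = z m k := by
    intro m k hk
    have h : ∃ m, z m k ≠ 0 := ⟨m, hk⟩
    have h1 := Classical.choose_spec h
    have h2 := huniq _ _ k h1 hk
    show (if h : ∃ m, z m k ≠ 0 then z (Classical.choose h) k else 0) = _
    rw [dif_pos h, h2]
  have hxf0 : ∀ k, (∀ m, z m k = 0) → xf k = 0 := by
    intro k hk
    have h : ¬ ∃ m, z m k ≠ 0 := by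
      rintro ⟨m, hm⟩
      exact hm (hk m)
    show (if h : ∃ m, z m k ≠ 0 then z (Classical.choose h) k else 0) = _
    rw [dif_neg h]
  have hxfb : ∀ k, ‖xf k‖ ≤ 1 := by
    intro k
    by_cases h : ∃ m, z m k ≠ 0
    · obtain ⟨m, hm⟩ := h
      rw [hxf m k hm]
      exact (coord_le (z m) k).trans (hz1 m)
    · push Not at h
      rw [hxf0 k h, norm_zero]
      exact zero_le_one
  let x : LI 𝕜 := ⟨xf, memℓp_infty ⟨1, by rintro _ ⟨k, rfl⟩; exact hxfb k⟩⟩
  have hx : ∀ k, x k = xf k := fun k => rfl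
  -- partial sums
  have hyk : ∀ n k, y n k = if (∃ m < n, z m k ≠ 0) then xf k else 0 := by
    intro n k
    induction n with
    | zero =>
      rw [if_neg (by rintro ⟨m, hm, _⟩; exact absurd hm (Nat.not_lt_zero m)), hy0]
      rfl
    | succ n ih =>
      have h1 : y (n + 1) k = y n k + z n k := by rw [hy]; rfl
      rw [h1, ih]
      by_cases hn : z n k = 0
      · rw [hn, add_zero]
        refine if_congr ?_ rfl rfl
        constructor
        · rintro ⟨m, hm, h⟩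
          exact ⟨m, hm.trans (Nat.lt_succ_self n), h⟩
        · rintro ⟨m, hm, h⟩
          rcases (Nat.lt_succ_iff_lt_or_eq).1 hm with h2 | h2
          · exact ⟨m, h2, h⟩
          · rw [h2] at h
            exact absurd hn h
      · rw [if_neg (by rintro ⟨m, hm, h⟩; exact h (hdis m n k hm hn)),
          if_pos ⟨n, Nat.lt_succ_self n, hn⟩, zero_add, hxf n k hn]
  let w : ℕ → LI 𝕜 := fun n => x - y n
  have hwk : ∀ n k, w n k = if (∃ m < n, z m k ≠ 0) then 0 else xf k := by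
    intro n k
    have h1 : w n k = xf k - y n k := rfl
    rw [h1, hyk]
    split_ifs with h
    · rw [sub_self]
    · rw [sub_zero]
  have hwadm : ∀ n, w n ∈ Adm (B n) := by
    intro n
    refine ⟨?_, ?_, ?_⟩
    · apply norm_le_of_coord zero_le_one
      intro k
      rw [hwk]
      split_ifs
      · rw [norm_zero]; exact zero_le_one
      · exact hxfb k
    · intro k hk
      rw [hwk] at hk
      split_ifs at hk with h
      · exact absurd rfl hk
      · by_contra hkB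
        apply hk
        apply hxf0
        intro m
        by_contra hm
        rcases lt_or_ge m n with h2 | h2
        · exact h ⟨m, h2, hm⟩
        · exact hkB (hBanti h2 (hz2 m k hm))
    · -- the reserved points
      have hbinj : ∀ m m', m < m' → b m ≠ b m' := by
        intro m m' hmm' he
        have h1 : b m' ∈ B (m + 1) := hBanti (Nat.succ_le_of_lt hmm') (hb m')
        rw [hBs] at h1
        exact h1.2 he.symm
      have hinj : Function.Injective fun j => b (n + j) := by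
        intro i j hij
        rcases lt_trichotomy i j with h | h | h
        · exact absurd hij (hbinj _ _ (by omega))
        · exact h
        · exact absurd hij.symm (hbinj _ _ (by omega))
      refine (Set.infinite_range_of_injective hinj).mono ?_
      rintro _ ⟨j, rfl⟩
      refine ⟨hBanti (Nat.le_add_right n j) (hb (n + j)), ?_⟩
      show w n (b (n + j)) = 0
      rw [hwk]
      split_ifs with h
      · rfl
      · apply hxf0
        intro m
        by_contra hm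
        rcases lt_trichotomy m (n + j) with h2 | h2 | h2
        · have h3 : b (n + j) ∈ B (m + 1) := hBanti (Nat.succ_le_of_lt h2) (hb (n + j))
          rw [hBs] at h3
          exact hm h3.1.2
        · rw [h2] at hm
          exact hm (hb0 (n + j))
        · have h3 : b (n + j) ∈ B (n + j + 1) := hBanti (Nat.succ_le_of_lt h2) (hz2 m _ hm)
          rw [hBs] at h3
          exact h3.2 rfl
  -- the numbers
  let S : ℕ → ℝ := fun n => Sup p (y n) (B n)
  have hSanti : Antitone S := antitone_nat_of_succ_le fun n => by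
    refine csSup_le ⟨_, 0, zero_adm (hBinf (n + 1)), rfl⟩ ?_
    rintro _ ⟨v, hv, rfl⟩
    show p (y (n + 1) + v) ≤ _
    rw [hy, add_assoc]
    refine le_Sup p hp ?_
    obtain ⟨hv1, hv2, hv3⟩ := hv
    have hdj : ∀ k, v k ≠ 0 → z n k = 0 := by
      intro k hk
      have h1 := hv2 k hk
      rw [hBs] at h1
      exact h1.1.2
    refine ⟨?_, ?_, ?_⟩
    · apply norm_le_of_coord zero_le_one
      intro k
      show ‖z n k + v k‖ ≤ 1
      by_cases hk : v k = 0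
      · rw [hk, add_zero]
        exact (coord_le (z n) k).trans (hz1 n)
      · rw [hdj k hk, zero_add]
        exact (coord_le v k).trans hv1
    · intro k hk
      by_cases hkv : v k = 0
      · apply hz2 n k
        intro h
        apply hk
        show z n k + v k = 0
        rw [h, hkv, add_zero]
      · exact hBanti (Nat.le_succ n) (hv2 k hkv)
    · refine hv3.mono ?_
      rintro k ⟨hk1, hk2⟩
      refine ⟨hBanti (Nat.le_succ n) hk1, ?_⟩
      rw [hBs] at hk1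
      show z n k + v k = 0
      rw [show z n k = 0 from hk1.1.2, show v k = 0 from hk2, add_zero]
  have hSnn : ∀ n, 0 ≤ S n := fun n =>
    (apply_nonneg p _).trans (le_Sup p hp (x := y n) (zero_adm (hBinf n)))
  have hpx : ∀ n, p x ≤ S n := by
    intro n
    have h1 : x = y n + w n := by
      show x = y n + (x - y n)
      abel
    rw [h1]
    exact le_Sup p hp (hwadm n)
  have hyn : ∀ n, p (y n) ≤ S n := by
    intro n
    have := le_Sup p hp (x := y n) (zero_adm (𝕜 := 𝕜) (hBinf n))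
    rwa [add_zero] at this
  have hypl : ∀ n, S n - (1 / 2 : ℝ) ^ n < p (y (n + 1)) := hS
  have hmid : ∀ n, 2 * p (y (n + 1)) ≤ p x + S n := by
    intro n
    have h1 : (2 : 𝕜) • y (n + 1) = x + (y (n + 1) + - w (n + 1)) := by
      show _ = x + (y (n + 1) + - (x - y (n + 1)))
      rw [two_smul]
      abel
    have h2 : p ((2 : 𝕜) • y (n + 1)) = 2 * p (y (n + 1)) := by
      rw [map_smul_eq_mul, RCLike.norm_ofNat]
    rw [← h2, h1]
    refine (map_add_le_add p _ _).trans (add_le_add le_rfl ?_)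
    exact (le_Sup p hp (neg_adm (hwadm (n + 1)))).trans (hSanti (Nat.le_succ n))
  have hlow : ∀ n, S n - 2 * (1 / 2 : ℝ) ^ n ≤ p x := by
    intro n
    linarith [hmid n, hypl n]
  have hSlim : Tendsto S atTop (𝓝 (p x)) := by
    have h1 : Tendsto (fun n : ℕ => p x + 2 * (1 / 2 : ℝ) ^ n) atTop (𝓝 (p x + 2 * 0)) :=
      tendsto_const_nhds.add
        ((tendsto_pow_atTop_nhds_zero_of_lt_one (by norm_num) (by norm_num)).const_mul 2)
    rw [mul_zero, add_zero] at h1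
    exact tendsto_of_tendsto_of_tendsto_of_le_of_le tendsto_const_nhds h1 hpx
      (fun n => by linarith [hlow n])
  have hpow : Tendsto (fun n : ℕ => (1 / 2 : ℝ) ^ n) atTop (𝓝 0) :=
    tendsto_pow_atTop_nhds_zero_of_lt_one (by norm_num) (by norm_num)
  have hylim : Tendsto (fun n => p (y (n + 1))) atTop (𝓝 (p x)) := by
    refine tendsto_of_tendsto_of_tendsto_of_le_of_le (by simpa using hSlim.sub hpow)
      (hSlim.comp (tendsto_add_atTop_nat 1)) (fun n => (hypl n).le) (fun n => hyn (n + 1))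
  have hsum : ∀ n, 4 * p (y (n + 1)) - 2 * S n ≤ p (x + y (n + 1)) := by
    intro n
    have h1 : (4 : 𝕜) • y (n + 1) = (x + y (n + 1)) +
        (2 : 𝕜) • (y (n + 1) + - (((1 / 2 : ℝ) : 𝕜) • w (n + 1))) :=
      four_smul_mid x (y (n + 1))
    have h2 : p ((4 : 𝕜) • y (n + 1)) = 4 * p (y (n + 1)) := by
      rw [map_smul_eq_mul, RCLike.norm_ofNat]
    have h3 : p ((2 : 𝕜) • (y (n + 1) + - (((1 / 2 : ℝ) : 𝕜) • w (n + 1)))) ≤ 2 * S n := by
      rw [map_smul_eq_mul, RCLike.norm_ofNat]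
      have h4 := (le_Sup p hp (x := y (n + 1)) (neg_adm (half_adm (hwadm (n + 1))))).trans
        (hSanti (Nat.le_succ n))
      linarith
    have h4 := map_add_le_add p (x + y (n + 1))
      ((2 : 𝕜) • (y (n + 1) + - (((1 / 2 : ℝ) : 𝕜) • w (n + 1))))
    rw [← h1, h2] at h4
    linarith
  refine ⟨x, fun n => y (n + 1), p x, ?_, ?_, rfl, hylim, ?_⟩
  · have h1 : z 0 (b' 0) ≠ 0 := by
      intro h
      have := hz3 0
      rw [h, norm_zero] at this
      exact absurd this (by norm_num)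
    have h2 := coord_le x (b' 0)
    rw [hx, hxf 0 _ h1, hz3 0] at h2
    exact h2
  · intro n
    have h1 : z (n + 1) (b' (n + 1)) ≠ 0 := by
      intro h
      have := hz3 (n + 1)
      rw [h, norm_zero] at this
      exact absurd this (by norm_num)
    have h2 := coord_le (w (n + 1)) (b' (n + 1))
    have h3 : (w (n + 1)) (b' (n + 1)) = z (n + 1) (b' (n + 1)) := by
      refine (hwk (n + 1) (b' (n + 1))).trans ?_
      rw [if_neg, hxf _ _ h1]
      rintro ⟨m, hm, h⟩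
      exact h (hdis m (n + 1) _ hm h1)
    have h4 : ‖(w (n + 1)) (b' (n + 1))‖ = 1 := (congrArg norm h3).trans (hz3 (n + 1))
    exact h4.symm.le.trans h2
  · have h1 : Tendsto (fun n => 4 * p (y (n + 1)) - 2 * S n) atTop (𝓝 (4 * p x - 2 * p x)) :=
      (hylim.const_mul 4).sub (hSlim.const_mul 2)
    have h2 : Tendsto (fun n => p x + p (y (n + 1))) atTop (𝓝 (p x + p x)) :=
      tendsto_const_nhds.add hylim
    rw [show 4 * p x - 2 * p x = 2 * p x by ring] at h1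
    rw [show p x + p x = 2 * p x by ring] at h2
    exact tendsto_of_tendsto_of_tendsto_of_le_of_le h1 h2 hsum (fun n => map_add_le_add p _ _)

end

/-- No equivalent norm on a space containing an isomorphic copy of `ℓ^∞` is locally uniformly
rotund. -/
theorem no_lur {E : Type} [NormedAddCommGroup E] [NormedSpace 𝕜 E] (J : LI 𝕜 →L[𝕜] E) {a : ℝ}
    (ha : 0 < a) (hJ : ∀ x, a * ‖x‖ ≤ ‖J x‖) (N : Seminorm 𝕜 E) {c C : ℝ} (hc : 0 < c)
    (hN : ∀ v, c * ‖v‖ ≤ N v ∧ N v ≤ C * ‖v‖)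
    (hlur : ∀ (v : E) (u : ℕ → E), N v = 1 → (∀ n, N (u n) = 1) →
      Tendsto (fun n => N (u n + v)) atTop (𝓝 2) → Tendsto (fun n => N (u n - v)) atTop (𝓝 0)) :
    False := by
  let p : Seminorm 𝕜 (LI 𝕜) := N.comp J.toLinearMap
  have hpa : ∀ x, p x = N (J x) := fun x => rfl
  have hC : 0 ≤ C := by
    by_contra hC
    push Not at hC
    have h1 : (lp.single ∞ 0 (1 : 𝕜) : LI 𝕜) ≠ 0 := by
      intro h
      have h2 : ‖(lp.single ∞ 0 (1 : 𝕜) : LI 𝕜)‖ = 1 := by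
        rw [lp.norm_single (by simp)]
        simp
      rw [h, norm_zero] at h2
      exact absurd h2 (by norm_num)
    have h3 := hJ (lp.single ∞ 0 (1 : 𝕜))
    have h4 : 0 < ‖(lp.single ∞ 0 (1 : 𝕜) : LI 𝕜)‖ := norm_pos_iff.2 h1
    have h5 : 0 < ‖J (lp.single ∞ 0 (1 : 𝕜))‖ := lt_of_lt_of_le (mul_pos ha h4) h3
    have h6 := (hN (J (lp.single ∞ 0 (1 : 𝕜)))).1.trans (hN (J (lp.single ∞ 0 (1 : 𝕜)))).2
    nlinarith [mul_pos hc h5]
  have hp : ∀ x, p x ≤ (C * ‖J‖) * ‖x‖ := by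
    intro x
    rw [hpa, mul_assoc]
    exact (hN (J x)).2.trans (mul_le_mul_of_nonneg_left (J.le_opNorm x) hC)
  have hpl : ∀ x, (c * a) * ‖x‖ ≤ p x := by
    intro x
    rw [hpa, mul_assoc]
    exact (mul_le_mul_of_nonneg_left (hJ x) hc.le).trans (hN (J x)).1
  obtain ⟨x, y, s, hx1, hxy, hxs, hys, hsum⟩ := exists_seq p hp
  have hca : 0 < c * a := mul_pos hc ha
  have hs : 0 < s := by
    rw [← hxs]
    exact lt_of_lt_of_le (mul_pos hca (lt_of_lt_of_le one_pos hx1)) (hpl x)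
  -- the tail of `y` where `p (y n)` is positive
  have hev : ∀ᶠ n in atTop, s / 2 < p (y n) := hys.eventually_const_lt (by linarith)
  obtain ⟨n0, hn0⟩ := eventually_atTop.1 hev
  let y' : ℕ → LI 𝕜 := fun n => y (n + n0)
  have hy'pos : ∀ n, s / 2 < p (y' n) := fun n => hn0 _ (Nat.le_add_left n0 n)
  have hy's : Tendsto (fun n => p (y' n)) atTop (𝓝 s) := hys.comp (tendsto_add_atTop_nat n0)
  have hy'sum : Tendsto (fun n => p (x + y' n)) atTop (𝓝 (2 * s)) :=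
    hsum.comp (tendsto_add_atTop_nat n0)
  let v : E := J ((((s⁻¹ : ℝ)) : 𝕜) • x)
  let u : ℕ → E := fun n => J ((((p (y' n))⁻¹ : ℝ) : 𝕜) • y' n)
  have hnorm : ∀ (t : ℝ) (z : LI 𝕜), 0 ≤ t → p (((t : ℝ) : 𝕜) • z) = t * p z := by
    intro t z ht
    rw [map_smul_eq_mul, RCLike.norm_ofReal, abs_of_nonneg ht]
  have hv : N v = 1 := by
    show p _ = 1
    rw [hnorm _ _ (inv_nonneg.2 hs.le), hxs, inv_mul_cancel₀ hs.ne']
  have hu : ∀ n, N (u n) = 1 := by
    intro n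
    have h0 : 0 < p (y' n) := lt_trans (by linarith) (hy'pos n)
    show p _ = 1
    rw [hnorm _ _ (inv_nonneg.2 h0.le), inv_mul_cancel₀ h0.ne']
  -- comparison of `u n` with `y' n / s`
  have hdiff : ∀ n, p ((((p (y' n))⁻¹ : ℝ) : 𝕜) • y' n - ((s⁻¹ : ℝ) : 𝕜) • y' n) =
      |1 - s⁻¹ * p (y' n)| := by
    intro n
    have h0 : 0 < p (y' n) := lt_trans (by linarith) (hy'pos n)
    rw [← sub_smul, ← RCLike.ofReal_sub, map_smul_eq_mul, RCLike.norm_ofReal]
    rw [← abs_of_pos h0, ← abs_mul, abs_of_pos h0, sub_mul, inv_mul_cancel₀ h0.ne']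
  have hdlim : Tendsto (fun n => |1 - s⁻¹ * p (y' n)|) atTop (𝓝 0) := by
    have h1 : Tendsto (fun n => |1 - s⁻¹ * p (y' n)|) atTop (𝓝 |1 - s⁻¹ * s|) :=
      (tendsto_const_nhds.sub (hy's.const_mul _)).abs
    rwa [inv_mul_cancel₀ hs.ne', sub_self, abs_zero] at h1
  have hsumN : Tendsto (fun n => N (u n + v)) atTop (𝓝 2) := by
    have hmain : Tendsto (fun n => s⁻¹ * p (x + y' n)) atTop (𝓝 2) := by
      have h1 := hy'sum.const_mul s⁻¹
      rwa [show s⁻¹ * (2 * s) = 2 by field_simp] at h1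
    have hlow : ∀ n, s⁻¹ * p (x + y' n) - |1 - s⁻¹ * p (y' n)| ≤ N (u n + v) := by
      intro n
      have h1 : ((s⁻¹ : ℝ) : 𝕜) • (x + y' n) =
          ((((p (y' n))⁻¹ : ℝ) : 𝕜) • y' n + ((s⁻¹ : ℝ) : 𝕜) • x) -
          ((((p (y' n))⁻¹ : ℝ) : 𝕜) • y' n - ((s⁻¹ : ℝ) : 𝕜) • y' n) := by
        rw [smul_add]
        abel
      have h2 := map_sub_le_add p
        ((((p (y' n))⁻¹ : ℝ) : 𝕜) • y' n + ((s⁻¹ : ℝ) : 𝕜) • x)
        ((((p (y' n))⁻¹ : ℝ) : 𝕜) • y' n - ((s⁻¹ : ℝ) : 𝕜) • y' n)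
      rw [← h1, hnorm _ _ (inv_nonneg.2 hs.le), hdiff] at h2
      have h3 : N (u n + v) = p ((((p (y' n))⁻¹ : ℝ) : 𝕜) • y' n + ((s⁻¹ : ℝ) : 𝕜) • x) := by
        exact congrArg N (J.map_add _ _).symm
      rw [h3]
      linarith
    have hup : ∀ n, N (u n + v) ≤ 2 := by
      intro n
      refine (map_add_le_add N _ _).trans ?_
      rw [hu, hv]
      norm_num
    have h4 : Tendsto (fun n => s⁻¹ * p (x + y' n) - |1 - s⁻¹ * p (y' n)|) atTop (𝓝 (2 - 0)) :=
      hmain.sub hdlim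
    rw [sub_zero] at h4
    exact tendsto_of_tendsto_of_tendsto_of_le_of_le h4 tendsto_const_nhds hlow hup
  have hfin := hlur v u hv hu hsumN
  -- but `u n` stays away from `v`
  have hfar : ∀ n, s⁻¹ * (c * a) - |1 - s⁻¹ * p (y' n)| ≤ N (u n - v) := by
    intro n
    have h1 : ((s⁻¹ : ℝ) : 𝕜) • (x - y' n) =
        -(((((p (y' n))⁻¹ : ℝ) : 𝕜) • y' n - ((s⁻¹ : ℝ) : 𝕜) • x) -
        ((((p (y' n))⁻¹ : ℝ) : 𝕜) • y' n - ((s⁻¹ : ℝ) : 𝕜) • y' n)) := by
      rw [smul_sub]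
      abel
    have h2 := map_sub_le_add p
      ((((p (y' n))⁻¹ : ℝ) : 𝕜) • y' n - ((s⁻¹ : ℝ) : 𝕜) • x)
      ((((p (y' n))⁻¹ : ℝ) : 𝕜) • y' n - ((s⁻¹ : ℝ) : 𝕜) • y' n)
    rw [← map_neg_eq_map, ← h1, hnorm _ _ (inv_nonneg.2 hs.le), hdiff] at h2
    have h3 : N (u n - v) = p ((((p (y' n))⁻¹ : ℝ) : 𝕜) • y' n - ((s⁻¹ : ℝ) : 𝕜) • x) := by
      exact congrArg N (J.map_sub _ _).symm
    have h5 : c * a ≤ p (x - y' n) := by
      refine le_trans ?_ (hpl _)
      have h6 : 1 ≤ ‖x - y' n‖ := hxy (n + n0)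
      nlinarith
    have h7 : s⁻¹ * (c * a) ≤ s⁻¹ * p (x - y' n) :=
      mul_le_mul_of_nonneg_left h5 (inv_nonneg.2 hs.le)
    rw [h3]
    linarith
  have hlim : Tendsto (fun n => s⁻¹ * (c * a) - |1 - s⁻¹ * p (y' n)|) atTop
      (𝓝 (s⁻¹ * (c * a) - 0)) := tendsto_const_nhds.sub hdlim
  have hle := le_of_tendsto_of_tendsto' hlim hfin hfar
  rw [sub_zero] at hle
  have : 0 < s⁻¹ * (c * a) := mul_pos (inv_pos.2 hs) hca
  linarith

end Pool.Agent.W691
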